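import Pool.Agent.H6.SSP

namespace Pool.Agent.Results.MP_3aeeeb_co.Exists
open Pool.Agent.H6.SSP

/-- The tadpole `T_{m,n}`: path `0-1-...-(n-1)`, cycle `n, ..., n+m-1`, bridge `(n-1)-n`.
For `n = 0` it is the cycle `C_m`. -/
def T (m n : ℕ) : SimpleGraph (Fin (n + m)) :=
  SimpleGraph.fromRel fun i j => (i : ℕ) + 1 = j ∨ ((i : ℕ) = n ∧ (j : ℕ) + 1 = n + m)

instance (m n : ℕ) : DecidableRel (T m n).Adj := fun i j => by unfold T; infer_instance

theorem result : G8.Connected ∧ G8.edgeSet.ncard = 8 ∧ G8.girth = 4 ∧ SSPGraph G8 ∧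
    ∀ m n, m = 4 ∨ m = 5 → IsEmpty (G8 ≃g T m n) := by
  refine ⟨by decide +kernel, ?_, ?_, g8, fun m n h => ⟨fun f => ?_⟩⟩
  · rw [← SimpleGraph.coe_edgeFinset, Set.ncard_coe_finset]
    decide +kernel
  · let w : G8.Walk 3 3 := .cons (show G8.Adj 3 4 by decide) <| .cons (show G8.Adj 4 5 by decide) <|
      .cons (show G8.Adj 5 6 by decide) <| .cons (show G8.Adj 6 3 by decide) .nil
    have hw : w.IsCycle := by
      rw [SimpleGraph.Walk.isCycle_def, SimpleGraph.Walk.isTrail_def]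
      refine ⟨by decide, by simp [w], by decide⟩
    have na : ¬ G8.IsAcyclic := fun h => h w hw
    obtain ⟨a, c, hc, e⟩ := SimpleGraph.exists_girth_eq_length.2 na
    have h3 := hc.three_le_length
    have h4 : G8.girth ≤ 4 := SimpleGraph.girth_le_length hw
    have : c.length ≠ 3 := fun h => by
      obtain ⟨s, hs⟩ := SimpleGraph.is3Clique_iff_exists_cycle_length_three.2 ⟨a, c, hc, h⟩
      obtain ⟨x, y, z, h1, h2, h3, -⟩ := SimpleGraph.is3Clique_iff.1 hs
      exact (show ∀ x y z, G8.Adj x y → G8.Adj x z → ¬ G8.Adj y z by decide +kernel) x y z h1 h2 h3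
    omega
  · have hc : 8 = n + m := by simpa using Fintype.card_congr f.toEquiv
    have d : ∀ x, (T m n).degree (f x) = G8.degree x := fun x => f.degree_eq x
    have h0 : (T m n).degree (f 0) = 1 := by rw [d]; decide +kernel
    have h7 : (T m n).degree (f 7) = 1 := by rw [d]; decide +kernel
    have u : ∀ x y, (T m n).degree x = 1 → (T m n).degree y = 1 → x = y := by
      obtain ⟨rfl, rfl⟩ | ⟨rfl, rfl⟩ : (m = 4 ∧ n = 4) ∨ (m = 5 ∧ n = 3) := by omega
      all_goals decide +kernel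
    exact absurd (f.injective (u _ _ h0 h7)) (by decide)

end Pool.Agent.Results.MP_3aeeeb_co.Exists
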